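import Pool.Agent.Helper19.YV.SignF

/-!
# YV: the converse: a root in the field generated by `F` and its trace gives a relation over `F`
-/

set_option autoImplicit false

open Polynomial Finset

namespace Pool.Agent.Helper14.YV

open Pool.Agent.Helper19.AAR (splitF crt)
open Pool.Agent.Helper19.Sign (qw weil weil_monic irreducible_qw InCore mem_qw qw_root_ne_zero
  traces traces_eq)
open Pool.Agent.Helper19.Disc (roots Rt mem_roots' stab_roots roots_map_eq exists_conj)

theorem conv (q : ℕ) (h : ℤ[X]) (hq : 0 < q) (hm : h.Monic) (hirr : Irreducible (weil (q : ℤ) h))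
    (f : ℤ[X]) (hf : f ≠ 0) (z : ℂ) (hz : z ∈ crt (weil (q : ℤ) h)) (hne : z ^ 2 ≠ q)
    (hzF : z ∈ splitF f ⊔ IntermediateField.adjoin ℚ {z + (q : ℂ) / z}) :
    ∃ (n : ℂ → ℤ) (N : ℕ), N ≠ 0 ∧ (∏ w ∈ crt (weil (q : ℤ) h), w ^ n w) ^ N ∈ splitF f ∧
      n z ≠ n (q / z) := by
  classical
  have hq0 : (q : ℤ) ≠ 0 := by omega
  have hfm : (weil (q : ℤ) h).Monic := (weil_monic (q : ℤ) h hm).1
  have h1 : Irreducible (qw (q : ℤ) h) :=
    (hfm.irreducible_iff_irreducible_map_fraction_map (K := ℚ)).1 hirr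
  -- the splitting field
  set P : ℚ[X] := qw (q : ℤ) h * f.map (Int.castRingHom ℚ) with hP
  have hf0 : f.map (Int.castRingHom ℚ) ≠ 0 :=
    (Polynomial.map_ne_zero_iff (Int.castRingHom ℚ).injective_int).2 hf
  have hP0 : P ≠ 0 := mul_ne_zero h1.ne_zero hf0
  have hsC : (P.map (algebraMap ℚ ℂ)).Splits := IsAlgClosed.splits _
  let L : IntermediateField ℚ ℂ := IntermediateField.adjoin ℚ (P.rootSet ℂ)
  have hL : P.IsSplittingField ℚ L := IntermediateField.adjoin_rootSet_isSplittingField hsC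
  have : FiniteDimensional ℚ L := IsSplittingField.finiteDimensional L P
  have : NumberField L := { }
  have hnorm : Normal ℚ L := Normal.of_isSplittingField P
  have : IsGalois ℚ L := { }
  have hsP : (P.map (algebraMap ℚ L)).Splits := IsSplittingField.splits L P
  have hsL : ((qw (q : ℤ) h).map (algebraMap ℚ L)).Splits := by
    refine Splits.of_dvd hsP ?_ (Polynomial.map_dvd _ (dvd_mul_right _ _))
    exact (Polynomial.map_ne_zero_iff (algebraMap ℚ L).injective).2 hP0
  have hmapC : (weil (q : ℤ) h).map (Int.castRingHom ℂ) =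
      ((qw (q : ℤ) h).map (algebraMap ℚ L)).map (algebraMap L ℂ) := by
    rw [Polynomial.map_map, qw, Polynomial.map_map]
    congr 1
  have hroots : crt (weil (q : ℤ) h) = (roots (qw (q : ℤ) h) L).image (algebraMap L ℂ) := by
    rw [crt, hmapC, hsL.roots_map]
    ext z
    rw [Multiset.mem_toFinset, Multiset.mem_map, Finset.mem_image]
    constructor
    · rintro ⟨b, hb, rfl⟩
      refine ⟨b, ?_, rfl⟩
      rw [mem_roots' h1.ne_zero]
      rw [mem_roots (Polynomial.map_ne_zero h1.ne_zero), IsRoot.def, eval_map_algebraMap] at hb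
      exact hb
    · rintro ⟨b, hb, rfl⟩
      refine ⟨b, ?_, rfl⟩
      rw [mem_roots' h1.ne_zero] at hb
      rw [mem_roots (Polynomial.map_ne_zero h1.ne_zero), IsRoot.def, eval_map_algebraMap]
      exact hb
  have hinj : Function.Injective (algebraMap L ℂ) := (algebraMap L ℂ).injective
  have hprod : ∀ n : ℂ → ℤ, ∏ z ∈ (roots (qw (q : ℤ) h) L).image (algebraMap L ℂ), z ^ n z =
      algebraMap L ℂ (∏ b ∈ roots (qw (q : ℤ) h) L, b ^ n (algebraMap L ℂ b)) := by
    intro n
    rw [Finset.prod_image fun a _ b _ hab => hinj hab, map_prod]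
    exact Finset.prod_congr rfl fun b _ => (map_zpow₀ (algebraMap L ℂ) b _).symm
  have hψP : ∀ z : ℂ, aeval z P = 0 → ∃ y : L, algebraMap L ℂ y = z := by
    intro z hz
    have hzL : z ∈ L := by
      apply IntermediateField.subset_adjoin
      rw [mem_rootSet]
      exact ⟨hP0, hz⟩
    exact ⟨⟨z, hzL⟩, rfl⟩
  have hint : (algebraMap ℚ ℂ).comp (Int.castRingHom ℚ) = algebraMap ℤ ℂ := Subsingleton.elim _ _
  have hψf : ∀ z : ℂ, aeval z f = 0 → ∃ y : L, algebraMap L ℂ y = z := by
    intro z hz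
    refine hψP z ?_
    rw [hP, map_mul]
    refine mul_eq_zero_of_right _ ?_
    rw [aeval_def, eval₂_map, hint, ← aeval_def, hz]
  have hmemA := Pool.Agent.Helper86.YV.field_aux2 L (algebraMap L ℂ) f hψf
  obtain ⟨H, hnor, hfixA, hfixA'⟩ := Pool.Agent.Helper86.YV.fixing_aux2 L f
  have hPne : qw (q : ℤ) h ≠ 0 := h1.ne_zero
  have hqL : ((q : ℤ) : L) ≠ 0 := by exact_mod_cast hq0
  rw [hroots] at hz
  obtain ⟨β₀, hβ₀, rfl⟩ := Finset.mem_image.1 hz
  have hβ0 : β₀ ≠ 0 := qw_root_ne_zero hm h1 hβ₀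
  have hqC : (q : ℂ) / algebraMap L ℂ β₀ = algebraMap L ℂ (((q : ℤ) : L) / β₀) := by
    rw [map_div₀, map_intCast]
    norm_cast
  -- the orbit
  let O : L → Prop := fun β => ∃ τ ∈ H, τ β₀ = β
  let inv : ℂ → L := Function.invFun (algebraMap L ℂ)
  have hinv : ∀ β : L, inv (algebraMap L ℂ β) = β := fun β =>
    Function.leftInverse_invFun hinj β
  refine ⟨fun w => if O (inv w) then 1 else 0, 1, one_ne_zero, ?_, ?_⟩
  · rw [pow_one, hroots, hprod, hmemA]
    apply hfixA'
    intro σ hσ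
    rw [map_prod]
    refine prod_bij' (fun β _ => σ β) (fun β _ => σ⁻¹ β) (fun β hβ => stab_roots hPne σ hβ)
      (fun β hβ => stab_roots hPne σ⁻¹ hβ) (fun β _ => σ.symm_apply_apply β)
      (fun β _ => σ.apply_symm_apply β) fun β _ => ?_
    rw [map_zpow₀, hinv, hinv]
    congr 1
    have hiff : O β ↔ O (σ β) := by
      constructor
      · rintro ⟨τ, hτ, rfl⟩
        exact ⟨σ * τ, H.mul_mem hσ hτ, rfl⟩
      · rintro ⟨τ, hτ, hτ'⟩
        refine ⟨σ⁻¹ * τ, H.mul_mem (H.inv_mem hσ) hτ, ?_⟩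
        show σ⁻¹ (τ β₀) = β
        rw [hτ']
        exact σ.symm_apply_apply β
    simp only [hiff]
  · have hO1 : O β₀ := ⟨1, H.one_mem, rfl⟩
    have hO2 : ¬ O (((q : ℤ) : L) / β₀) := by
      rintro ⟨τ, hτ, hτβ⟩
      have hτβ' : τ (((q : ℤ) : L) / β₀) = β₀ := by
        rw [map_div₀, map_intCast, hτβ, div_div_cancel₀ hqL]
      have hfx : ∀ y : L, τ y = y → y ∈ IntermediateField.fixedField (Subgroup.zpowers τ) := by
        intro y hy
        rw [IntermediateField.mem_fixedField_iff]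
        intro σ hσ
        have h5 : τ ∈ MulAction.stabilizer (L ≃ₐ[ℚ] L) y := hy
        exact (Subgroup.zpowers_le.2 h5) hσ
      have hle : splitF f ⊔ IntermediateField.adjoin ℚ
          {algebraMap L ℂ β₀ + (q : ℂ) / algebraMap L ℂ β₀} ≤
          (IntermediateField.fixedField (Subgroup.zpowers τ)).map L.val := by
        apply sup_le
        · rw [splitF, IntermediateField.adjoin_le_iff]
          intro w hw
          obtain ⟨y, rfl⟩ := hψf w hw
          refine ⟨y, hfx y (hfixA τ hτ y ?_), rfl⟩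
          apply (hmemA y).1
          exact IntermediateField.subset_adjoin ℚ _ hw
        · rw [IntermediateField.adjoin_le_iff, Set.singleton_subset_iff]
          refine ⟨β₀ + ((q : ℤ) : L) / β₀, hfx _ ?_, ?_⟩
          · rw [map_add, hτβ, hτβ', add_comm]
          · rw [hqC]
            show algebraMap L ℂ (β₀ + ((q : ℤ) : L) / β₀) = _
            rw [map_add]
      obtain ⟨y, hy, hy'⟩ := hle hzF
      have hyβ : y = β₀ := hinj hy'
      rw [hyβ] at hy
      have h6 : τ β₀ = β₀ :=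
        (IntermediateField.mem_fixedField_iff _ _).1 hy τ (Subgroup.mem_zpowers τ)
      apply hne
      have h7 : ((q : ℤ) : L) / β₀ = β₀ := by rw [← hτβ, h6]
      have h8 : β₀ ^ 2 = ((q : ℤ) : L) := by
        rw [div_eq_iff hβ0] at h7
        rw [h7, sq]
      rw [← map_pow, h8, map_intCast]
      norm_cast
    show (if O (inv (algebraMap L ℂ β₀)) then (1 : ℤ) else 0) ≠
      if O (inv ((q : ℂ) / algebraMap L ℂ β₀)) then 1 else 0
    rw [hqC, hinv, hinv, if_pos hO1, if_neg hO2]
    exact one_ne_zero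

end Pool.Agent.Helper14.YV
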